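import Pool.Graph.R_pool_sql_team_seeded_2aa45f1a.Q290.NF.BelRad

/-!
# The Belyi polynomial of a squarefree polynomial over a number field
-/

set_option autoImplicit false

namespace Pool.Agent.Helper8.RC

open Polynomial Pool.Agent.Q290.NF

theorem belyi_sqf (K : Type) [Field K] [NumberField K] (S : K[X]) (hS : Squarefree S) :
    ∃ (f R : ℚ[X]) (G : K[X]) (M : ℕ), 1 ≤ f.natDegree ∧ f * (f - 1) = derivative f * R ∧
      derivative f ∣ R ^ M ∧ G ≠ 0 ∧
      R.map (algebraMap ℚ K) = S * G ∧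
      S.natDegree + G.natDegree = f.natDegree + 1 := by
  classical
  obtain ⟨ι⟩ : Nonempty (K →ₐ[ℚ] Om) := ⟨IsAlgClosed.lift⟩
  have hS0 : S ≠ 0 := hS.ne_zero
  obtain ⟨T, hT⟩ : ∃ T : Om[X], T = S.map (ι : K →+* Om) := ⟨_, rfl⟩
  have hT0 : T ≠ 0 := by
    rw [hT, Ne, Polynomial.map_eq_zero]
    exact hS0
  obtain ⟨f, hf, hA, hcrit⟩ := belyi T.roots.toFinset
  obtain ⟨R, hR, hRd, hRr, M, hM⟩ := radical_poly hf hcrit
  have hR0' : R ≠ 0 := by
    rintro rfl
    rw [natDegree_zero] at hRd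
    omega
  have hR0 : R.map (algebraMap ℚ K) ≠ 0 := by
    rw [Ne, Polynomial.map_eq_zero]
    exact hR0'
  have hRO : (R.map (algebraMap ℚ K)).map (ι : K →+* Om) = R.map (algebraMap ℚ Om) := by
    rw [Polynomial.map_map]
    congr 1
    exact ι.comp_algebraMap
  have hRO0 : R.map (algebraMap ℚ Om) ≠ 0 := by
    rw [Ne, Polynomial.map_eq_zero]
    exact hR0'
  have hdvd : S ∣ R.map (algebraMap ℚ K) := by
    rw [← map_dvd_map' (ι : K →+* Om), hRO, ← hT]
    have hs : T.Splits := IsAlgClosed.splits _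
    rw [hs.eq_prod_roots]
    have hlc : IsUnit (C T.leadingCoeff) :=
      isUnit_C.2 (isUnit_iff_ne_zero.2 (leadingCoeff_ne_zero.2 hT0))
    rw [hlc.mul_left_dvd]
    have hnd : T.roots.Nodup := by
      apply nodup_roots
      rw [hT]
      exact ((PerfectField.separable_iff_squarefree).2 hS).map
    rw [Multiset.prod_X_sub_C_dvd_iff_le_roots hRO0, Multiset.le_iff_subset hnd]
    intro α hα
    rw [mem_roots hRO0, IsRoot.def, eval_map, ← aeval_def]
    exact hRr α (hA α (Multiset.mem_toFinset.2 hα))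
  obtain ⟨G, hG⟩ := hdvd
  have hG0 : G ≠ 0 := by
    rintro rfl
    exact hR0 (by rw [hG, mul_zero])
  refine ⟨f, R, G, M, hf, hR, hM, hG0, hG, ?_⟩
  have h2 : (R.map (algebraMap ℚ K)).natDegree = R.natDegree := natDegree_map _
  rw [hG, natDegree_mul hS0 hG0, hRd] at h2
  omega

end Pool.Agent.Helper8.RC
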