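import Mathlib

/-!
# The number of points of a rational function over three points (Riemann-Hurwitz, from the
Wronskian, as in the Mason-Stothers theorem)
-/

set_option autoImplicit false

namespace Pool.Agent.Helper8.RC

open Polynomial UniqueFactorizationMonoid UniqueFactorizationDomain EuclideanDomain

variable {k : Type*} [Field k] [DecidableEq k]

/-- the degree of the map -/
def dg (P Q : k[X]) : ℕ := max P.natDegree Q.natDegree

/-- `∞` is a point over one of the three points -/
def AtInf (P Q : k[X]) : Prop := ¬ (P.natDegree = Q.natDegree ∧ (P + Q).natDegree = P.natDegree)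

theorem dvd_w {a b c : k[X]} (hab : IsCoprime a b) (hsum : a + b + c = 0) :
    divRadical (a * b * c) ∣ wronskian a b := by
  set w := wronskian a b with wab
  have hbc : IsCoprime b c := by
    rw [add_eq_zero_iff_neg_eq] at hsum
    rw [← hsum, IsCoprime.neg_right_iff]
    convert! IsCoprime.add_mul_left_right hab.symm 1
    rw [mul_one]
  have hsum' : b + c + a = 0 := by rwa [add_rotate] at hsum
  have hca : IsCoprime c a := by
    rw [add_eq_zero_iff_neg_eq] at hsum'
    rw [← hsum', IsCoprime.neg_right_iff]
    convert! IsCoprime.add_mul_left_right hbc.symm 1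
    rw [mul_one]
  have wbc : w = wronskian b c := wronskian_eq_of_sum_zero hsum
  have adr_dvd_w := divRadical_dvd_wronskian_left a b
  have bdr_dvd_w := divRadical_dvd_wronskian_right a b
  have cdr_dvd_w := divRadical_dvd_wronskian_right b c
  rw [← wab] at adr_dvd_w bdr_dvd_w
  rw [← wbc] at cdr_dvd_w
  rw [divRadical_mul (hca.symm.mul_left hbc), divRadical_mul hab]
  exact (hca.divRadical.symm.mul_left hbc.divRadical).mul_dvd
    (hab.divRadical.mul_dvd adr_dvd_w bdr_dvd_w) cdr_dvd_w

omit [DecidableEq k] in
theorem w_deg {a b : k[X]} {n : ℕ} (hn : 1 ≤ n) (ha : a.natDegree = n) (hb : b.natDegree = n) :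
    (wronskian a b).natDegree + 2 ≤ 2 * n := by
  have h1 : (wronskian a b).natDegree ≤ 2 * n - 2 := by
    rw [natDegree_le_iff_coeff_eq_zero]
    intro N hN
    rw [wronskian, coeff_sub]
    have hda : (derivative a).natDegree ≤ n - 1 := (natDegree_derivative_le a).trans (by rw [ha])
    have hdb : (derivative b).natDegree ≤ n - 1 := (natDegree_derivative_le b).trans (by rw [hb])
    rcases Nat.lt_or_ge (2 * n - 1) N with h | h
    · rw [coeff_eq_zero_of_natDegree_lt, coeff_eq_zero_of_natDegree_lt, sub_zero]
      · refine lt_of_le_of_lt (natDegree_mul_le) ?_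
        omega
      · refine lt_of_le_of_lt (natDegree_mul_le) ?_
        omega
    · have hN2 : N = n + (n - 1) := by omega
      have hN3 : N = (n - 1) + n := by omega
      have e1 : (a * derivative b).coeff N = a.coeff n * (derivative b).coeff (n - 1) := by
        rw [hN2]
        exact coeff_mul_add_eq_of_natDegree_le ha.le hdb
      have e2 : (derivative a * b).coeff N = (derivative a).coeff (n - 1) * b.coeff n := by
        rw [hN3]
        exact coeff_mul_add_eq_of_natDegree_le hda hb.le
      rw [e1, e2, coeff_derivative, coeff_derivative, Nat.sub_add_cancel hn]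
      ring
  omega

/-- **the number of points** -/
theorem count [CharZero k] {P Q : k[X]} (hPQ : IsCoprime P Q) (hd : 1 ≤ dg P Q) (hP : P ≠ 0)
    (hQ : Q ≠ 0) (hR : P + Q ≠ 0) :
    (AtInf P Q → dg P Q + 1 ≤ (radical (P * Q * (P + Q))).natDegree) ∧
      (¬ AtInf P Q → dg P Q + 2 ≤ (radical (P * Q * (P + Q))).natDegree) := by
  have hc : -(P + Q) ≠ 0 := neg_ne_zero.2 hR
  have hsum : P + Q + -(P + Q) = 0 := by ring
  have hrad : radical (P * Q * -(P + Q)) = radical (P * Q * (P + Q)) := by
    rw [mul_neg, radical_neg]
  constructor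
  · intro _
    have h := Polynomial.abc hP hQ hc hPQ hsum
    rw [hrad] at h
    rcases h with h | h
    · unfold dg
      rcases max_cases P.natDegree Q.natDegree with h1 | h1 <;> omega
    · exfalso
      have h1 := derivative_eq_zero.1 h.1
      have h2 := derivative_eq_zero.1 h.2.1
      unfold dg at hd
      omega
  · intro hinf
    unfold AtInf at hinf
    rw [not_not] at hinf
    obtain ⟨h1, h2⟩ := hinf
    obtain ⟨n, hn⟩ : ∃ n, n = dg P Q := ⟨_, rfl⟩
    have hnP : P.natDegree = n := by
      rw [hn]
      unfold dg
      omega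
    have hnQ : Q.natDegree = n := by omega
    rw [← hn] at hd ⊢
    have hw0 : wronskian P Q ≠ 0 := by
      intro h
      obtain ⟨h3, h4⟩ := hPQ.wronskian_eq_zero_iff.mp h
      have h5 := derivative_eq_zero.1 h3
      omega
    have h3 := natDegree_le_of_dvd (dvd_w hPQ hsum) hw0
    have h4 := w_deg hd hnP hnQ
    have ab_nz := mul_ne_zero hP hQ
    have abc_nz := mul_ne_zero ab_nz hc
    have h5 : P.natDegree + Q.natDegree + (-(P + Q)).natDegree =
        (radical (P * Q * -(P + Q))).natDegree + (divRadical (P * Q * -(P + Q))).natDegree := by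
      rw [← natDegree_mul hP hQ, ← natDegree_mul ab_nz hc,
        ← natDegree_mul radical_ne_zero (divRadical_ne_zero abc_nz), radical_mul_divRadical]
    rw [natDegree_neg, hrad] at h5
    rw [hrad.symm] at h5 ⊢
    omega

end Pool.Agent.Helper8.RC
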