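import Pool.Agent.Helper8.RC.Line
import Pool.Agent.Helper8.RC.Count

/-!
# The inequality for a rational function over `K`
-/

set_option autoImplicit false

namespace Pool.Agent.Helper8.RC

open NumberField IsDedekindDomain Height Polynomial Pool.Agent.Q290.NF

variable {K : Type} [Field K] [NumberField K]

/-- the primes at which `c` is not a unit -/
def nonunit (c : K) : Set (HeightOneSpectrum (𝓞 K)) := {v | v.valuation K c ≠ 1}

theorem nonunit_fin {c : K} (hc : c ≠ 0) : (nonunit c).Finite := by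
  refine ((fin_zero hc).union (fin_pole c)).subset ?_
  intro v hv
  rcases lt_or_gt_of_ne (show v.valuation K c ≠ 1 from hv) with h | h
  · exact Or.inl h
  · exact Or.inr h

theorem eval_pole {P : K[X]} {v : HeightOneSpectrum (𝓞 K)} (hv : v ∉ badP P)
    (hl : v ∉ nonunit P.leadingCoeff) {x : K} (hx : 1 < v.valuation K x) :
    v.valuation K (P.eval x) = v.valuation K x ^ P.natDegree := by
  have hl' : v.valuation K P.leadingCoeff = 1 := by
    by_contra h
    exact hl h
  have hx0 : v.valuation K x ≠ 0 := (lt_trans zero_lt_one hx).ne'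
  rw [eval_eq_sum_range, Finset.sum_range_succ]
  have h1 : v.valuation K (P.coeff P.natDegree * x ^ P.natDegree) =
      v.valuation K x ^ P.natDegree := by
    rw [map_mul, map_pow]
    have : v.valuation K (P.coeff P.natDegree) = 1 := hl'
    rw [this, one_mul]
  have h2 : v.valuation K (∑ i ∈ Finset.range P.natDegree, P.coeff i * x ^ i) <
      v.valuation K x ^ P.natDegree := by
    refine Valuation.map_sum_lt _ (pow_ne_zero _ hx0) fun i hi => ?_
    rw [map_mul, map_pow]
    have h3 : v.valuation K (P.coeff i) ≤ 1 := by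
      by_contra hcon
      exact hv ⟨i, not_le.1 hcon⟩
    have h4 : v.valuation K x ^ i < v.valuation K x ^ P.natDegree :=
      pow_lt_pow_right₀ hx (Finset.mem_range.1 hi)
    exact lt_of_le_of_lt (mul_le_of_le_one_left' h3) h4
  rw [← h1] at h2
  rw [Valuation.map_add_eq_of_lt_right _ h2, h1]

open Classical in
/-- the number of the points over `0`, `1`, `∞` of the map `- P / Q` -/
noncomputable def pts (P Q : K[X]) : ℕ :=
  (UniqueFactorizationMonoid.radical (P * Q * (P + Q))).natDegree + if AtInf P Q then 1 else 0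

omit [NumberField K] in
theorem nonzero {P Q : K[X]} (hPQ : IsCoprime P Q) (hd : 1 ≤ dg P Q) :
    P ≠ 0 ∧ Q ≠ 0 ∧ P + Q ≠ 0 := by
  refine ⟨?_, ?_, ?_⟩
  · rintro rfl
    have h1 := natDegree_eq_zero_of_isUnit (isCoprime_zero_left.1 hPQ)
    unfold dg at hd
    rw [natDegree_zero] at hd
    omega
  · rintro rfl
    have h1 := natDegree_eq_zero_of_isUnit (isCoprime_zero_right.1 hPQ)
    unfold dg at hd
    rw [natDegree_zero] at hd
    omega
  · intro h
    have h2 : Q = -P := eq_neg_of_add_eq_zero_right h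
    rw [h2, IsCoprime.neg_right_iff, isCoprime_self] at hPQ
    have h1 := natDegree_eq_zero_of_isUnit hPQ
    unfold dg at hd
    rw [h2, natDegree_neg] at hd
    omega

open Classical in
theorem pts_ge {P Q : K[X]} (hPQ : IsCoprime P Q) (hd : 1 ≤ dg P Q) : dg P Q + 2 ≤ pts P Q := by
  obtain ⟨hP, hQ, hR⟩ := nonzero hPQ hd
  obtain ⟨h1, h2⟩ := count hPQ hd hP hQ hR
  unfold pts
  by_cases h : AtInf P Q
  · rw [if_pos h]
    have := h1 h
    omega
  · rw [if_neg h]
    have := h2 h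
    omega

theorem ratio_height (P Q : K[X]) : ∃ C : ℝ, ∀ x : K, Q.eval x ≠ 0 →
    logHeight₁ (-P.eval x / Q.eval x) ≤ dg P Q * logHeight₁ x + C := by
  have hP : P.natDegree ≤ dg P Q := le_max_left _ _
  have hQ : Q.natDegree ≤ dg P Q := le_max_right _ _
  obtain ⟨C, hC⟩ := logHeight_eval_le' (K := K) (N := dg P Q)
    (p := fun j : Fin 2 => ![-hom (dg P Q) P, hom (dg P Q) Q] j) (by
      intro j
      fin_cases j
      · exact (hom_homogeneous _ P).neg
      · exact hom_homogeneous _ Q)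
  refine ⟨C, fun x hx => ?_⟩
  have h1 := hC ![x, 1]
  have h2 : (fun j : Fin 2 => MvPolynomial.eval ![x, 1]
      (![-hom (dg P Q) P, hom (dg P Q) Q] j)) = Q.eval x • ![-P.eval x / Q.eval x, 1] := by
    funext j
    fin_cases j
    · simp only [Fin.zero_eta, Matrix.cons_val_zero, map_neg, Pi.smul_apply, smul_eq_mul]
      rw [hom_eval hP x]
      field_simp
    · show MvPolynomial.eval ![x, 1] (hom (dg P Q) Q) = Q.eval x * 1
      rw [mul_one]
      exact hom_eval hQ x
  rw [h2, logHeight_smul_eq_logHeight _ hx, ← logHeight₁_eq_logHeight,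
    ← logHeight₁_eq_logHeight] at h1
  linarith

theorem curve (P Q : K[X]) (hPQ : IsCoprime P Q) (hd : 1 ≤ dg P Q) (Dm : K → Prop)
    (hDm : ∀ (f : ℚ[X]) (x : K), Dm x → Dm ((f.map (algebraMap ℚ K)).eval x))
    (h3 : ∀ ε : ℝ, 0 < ε → ∃ C : ℝ, ∀ z : K, Dm z → z ≠ 0 → z ≠ 1 →
      (1 - ε) * logHeight₁ z ≤ wt (fun v => Bad3 z v) + C) :
    ∀ ε : ℝ, 0 < ε → ∃ C : ℝ, ∀ x : K, Dm x → P.eval x ≠ 0 → Q.eval x ≠ 0 →
      (P + Q).eval x ≠ 0 →
      ((pts P Q : ℝ) - 2 - ε) * logHeight₁ x ≤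
        wt (fun v => Bad3 (-P.eval x / Q.eval x) v) + C := by
  classical
  intro ε hε
  obtain ⟨hP, hQ, hR⟩ := nonzero hPQ hd
  obtain ⟨S, hS⟩ : ∃ S : K[X], S = UniqueFactorizationMonoid.radical (P * Q * (P + Q)) := ⟨_, rfl⟩
  have hW0 : P * Q * (P + Q) ≠ 0 := mul_ne_zero (mul_ne_zero hP hQ) hR
  have hSq : Squarefree S := by
    rw [hS]
    exact UniqueFactorizationMonoid.squarefree_radical
  obtain ⟨T, hT⟩ : S ∣ P * Q * (P + Q) := by
    rw [hS]
    exact UniqueFactorizationMonoid.radical_dvd_self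
  obtain ⟨U, V, hUV⟩ := hPQ
  obtain ⟨C, hC⟩ := line_s S hSq Dm hDm h3 ε hε
  obtain ⟨Bd, hBd⟩ : ∃ Bd : Set (HeightOneSpectrum (𝓞 K)), Bd =
    badP P ∪ badP Q ∪ badP (P + Q) ∪ badP U ∪ badP V ∪ badP T ∪ nonunit P.leadingCoeff ∪
      nonunit Q.leadingCoeff ∪ nonunit (P + Q).leadingCoeff := ⟨_, rfl⟩
  have hBdf : Bd.Finite := by
    rw [hBd]
    exact ((((((((badP_fin P).union (badP_fin Q)).union (badP_fin (P + Q))).union
      (badP_fin U)).union (badP_fin V)).union (badP_fin T)).union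
      (nonunit_fin (leadingCoeff_ne_zero.2 hP))).union
      (nonunit_fin (leadingCoeff_ne_zero.2 hQ))).union
      (nonunit_fin (leadingCoeff_ne_zero.2 hR))
  obtain ⟨CB, hCB⟩ : ∃ c : ℝ, c = wt (fun v : HeightOneSpectrum (𝓞 K) => v ∈ Bd) := ⟨_, rfl⟩
  have hCB0 : 0 ≤ CB := by rw [hCB]; exact wt_nonneg _
  refine ⟨C + CB, fun x hxD hPx hQx hRx => ?_⟩
  have hSx : S.eval x ≠ 0 := by
    intro h
    have h1 : (P * Q * (P + Q)).eval x = 0 := by rw [hT, eval_mul, h, zero_mul]
    rw [eval_mul, eval_mul] at h1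
    exact mul_ne_zero (mul_ne_zero hPx hQx) hRx h1
  have hmain := hC x hxD hSx
  obtain ⟨z, hz⟩ : ∃ z : K, z = -P.eval x / Q.eval x := ⟨_, rfl⟩
  rw [← hz]
  have hz0 : z ≠ 0 := by
    rw [hz]
    exact div_ne_zero (neg_ne_zero.2 hPx) hQx
  have e1z : 1 - z = (P + Q).eval x / Q.eval x := by
    rw [hz, eval_add]
    field_simp
    ring
  have hz1 : z ≠ 1 := by
    intro h
    rw [h, sub_self] at e1z
    exact div_ne_zero hRx hQx e1z.symm
  have hfz : {v | Bad3 z v}.Finite := fin_bad3 hz0 hz1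
  -- if `z` and `1 - z` are units then the three values have the same absolute value
  have hsame : ∀ v : HeightOneSpectrum (𝓞 K), ¬ Bad3 z v →
      v.valuation K (P.eval x) = v.valuation K (Q.eval x) ∧
      v.valuation K ((P + Q).eval x) = v.valuation K (Q.eval x) := by
    intro v hv
    unfold Bad3 at hv
    rw [not_not] at hv
    obtain ⟨h1, h2⟩ := hv
    have hq0 : v.valuation K (Q.eval x) ≠ 0 := (Valuation.ne_zero_iff _).2 hQx
    rw [hz, map_div₀, Valuation.map_neg, div_eq_one_iff_eq hq0] at h1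
    rw [e1z, map_div₀, div_eq_one_iff_eq hq0] at h2
    exact ⟨h1, h2⟩
  have hzero : ∀ v : HeightOneSpectrum (𝓞 K), v ∉ Bd → v.valuation K x ≤ 1 →
      v.valuation K (S.eval x) < 1 → Bad3 z v := by
    intro v hb hx1 hSv
    by_contra hcon
    obtain ⟨s1, s2⟩ := hsame v hcon
    rw [hBd] at hb
    simp only [Set.mem_union, not_or] at hb
    obtain ⟨⟨⟨⟨⟨⟨⟨⟨bP, bQ⟩, bR⟩, bU⟩, bV⟩, bT⟩, -⟩, -⟩, -⟩ := hb
    have vP := eval_le_one bP hx1
    have vQ := eval_le_one bQ hx1
    have vU := eval_le_one bU hx1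
    have vV := eval_le_one bV hx1
    have vT := eval_le_one bT hx1
    have h1 : v.valuation K (Q.eval x) = 1 := by
      refine le_antisymm vQ ?_
      have h2 : U.eval x * P.eval x + V.eval x * Q.eval x = 1 := by
        rw [← eval_mul, ← eval_mul, ← eval_add, hUV, eval_one]
      have h3 : v.valuation K (U.eval x * P.eval x + V.eval x * Q.eval x) ≤
          v.valuation K (Q.eval x) := by
        refine Valuation.map_add_le _ ?_ ?_
        · rw [map_mul, s1]
          exact mul_le_of_le_one_left' vU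
        · rw [map_mul]
          exact mul_le_of_le_one_left' vV
      rwa [h2, map_one] at h3
    have h4 : v.valuation K ((P * Q * (P + Q)).eval x) = 1 := by
      rw [eval_mul, eval_mul, map_mul, map_mul, s1, s2, h1, one_mul, one_mul]
    rw [hT, eval_mul, map_mul] at h4
    exact absurd h4 (mul_lt_one_of_nonneg_of_lt_one_left zero_le hSv vT).ne
  by_cases hinf : AtInf P Q
  · -- the poles of `x`
    have hpole : ∀ v : HeightOneSpectrum (𝓞 K), v ∉ Bd → 1 < v.valuation K x → Bad3 z v := by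
      intro v hb hx1
      by_contra hcon
      obtain ⟨s1, s2⟩ := hsame v hcon
      rw [hBd] at hb
      simp only [Set.mem_union, not_or] at hb
      obtain ⟨⟨⟨⟨⟨⟨⟨⟨bP, bQ⟩, bR⟩, bU⟩, bV⟩, bT⟩, lP⟩, lQ⟩, lR⟩ := hb
      rw [eval_pole bP lP hx1, eval_pole bQ lQ hx1] at s1
      rw [eval_pole bR lR hx1, eval_pole bQ lQ hx1] at s2
      apply hinf
      have i1 := pow_right_injective₀ (lt_trans zero_lt_one hx1) hx1.ne' s1
      have i2 := pow_right_injective₀ (lt_trans zero_lt_one hx1) hx1.ne' s2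
      exact ⟨i1, i2.trans i1.symm⟩
    have hle : wt (fun v => PS S x v) ≤ CB + wt (fun v => Bad3 z v) := by
      rw [hCB]
      refine (wt_mono (hBdf.union hfz) ?_).trans (wt_or_le (P := fun v => v ∈ Bd) hBdf hfz)
      intro v hv
      by_cases hb : v ∈ Bd
      · exact Or.inl hb
      · right
        by_cases hx1 : 1 < v.valuation K x
        · exact hpole v hb hx1
        · rcases hv with h | h
          · exact absurd h hx1
          · exact hzero v hb (not_lt.1 hx1) h
    have e : (pts P Q : ℝ) = S.natDegree + 1 := by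
      unfold pts
      rw [if_pos hinf, hS]
      push_cast
      ring
    rw [e]
    have e2 : ((S.natDegree : ℝ) + 1 - 2 - ε) = S.natDegree - 1 - ε := by ring
    rw [e2]
    linarith
  · have hfp := fin_pole x
    have hle : wt (fun v => PS S x v) ≤ (CB + wt (fun v => Bad3 z v)) +
        wt (fun v : HeightOneSpectrum (𝓞 K) => 1 < v.valuation K x) := by
      rw [hCB]
      refine (wt_mono ((hBdf.union hfz).union hfp) ?_).trans ((wt_or_le
        (P := fun v => v ∈ Bd ∨ Bad3 z v) (hBdf.union hfz) hfp).trans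
        (add_le_add (wt_or_le (P := fun v => v ∈ Bd) hBdf hfz) le_rfl))
      intro v hv
      by_cases hb : v ∈ Bd
      · exact Or.inl (Or.inl hb)
      · by_cases hx1 : 1 < v.valuation K x
        · exact Or.inr hx1
        · left
          right
          rcases hv with h | h
          · exact absurd h hx1
          · exact hzero v hb (not_lt.1 hx1) h
    have hp := pole_le x
    have e : (pts P Q : ℝ) = S.natDegree := by
      unfold pts
      rw [if_neg hinf, hS]
      push_cast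
      ring
    rw [e]
    have e2 : ((S.natDegree : ℝ) - 2 - ε) * logHeight₁ x =
        ((S.natDegree : ℝ) - 1 - ε) * logHeight₁ x - logHeight₁ x := by ring
    rw [e2]
    linarith

/-- the inequality in terms of the height of the value -/
theorem curve_ht (P Q : K[X]) (hPQ : IsCoprime P Q) (hd : 1 ≤ dg P Q) (Dm : K → Prop)
    (hDm : ∀ (f : ℚ[X]) (x : K), Dm x → Dm ((f.map (algebraMap ℚ K)).eval x))
    (h3 : ∀ ε : ℝ, 0 < ε → ∃ C : ℝ, ∀ z : K, Dm z → z ≠ 0 → z ≠ 1 →
      (1 - ε) * logHeight₁ z ≤ wt (fun v => Bad3 z v) + C) :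
    ∀ ε : ℝ, 0 < ε → ∃ C : ℝ, ∀ x : K, Dm x → P.eval x ≠ 0 → Q.eval x ≠ 0 →
      (P + Q).eval x ≠ 0 →
      (((pts P Q : ℝ) - 2) / dg P Q - ε) * logHeight₁ (-P.eval x / Q.eval x) ≤
        wt (fun v => Bad3 (-P.eval x / Q.eval x) v) + C := by
  intro ε hε
  have hd0 : (0 : ℝ) < dg P Q := by exact_mod_cast hd
  obtain ⟨C, hC⟩ := curve P Q hPQ hd Dm hDm h3 (ε * dg P Q) (by positivity)
  obtain ⟨C1, hC1⟩ := ratio_height P Q
  obtain ⟨e, he⟩ : ∃ e : ℝ, e = ((pts P Q : ℝ) - 2) / dg P Q := ⟨_, rfl⟩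
  rw [← he]
  refine ⟨|C| + |e - ε| * |C1|, fun x hxD hPx hQx hRx => ?_⟩
  have h1 := hC x hxD hPx hQx hRx
  have h2 := hC1 x hQx
  have h3 := zero_le_logHeight₁ (-P.eval x / Q.eval x)
  have h4 := wt_nonneg (fun v : HeightOneSpectrum (𝓞 K) => Bad3 (-P.eval x / Q.eval x) v)
  have h5 := le_abs_self C
  have h6 := abs_nonneg C
  have h7 : 0 ≤ |e - ε| * |C1| := by positivity
  by_cases h8 : 0 ≤ e - ε
  · have h9 := mul_le_mul_of_nonneg_left h2 h8
    have h10 : (e - ε) * (dg P Q * logHeight₁ x + C1) =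
        ((pts P Q : ℝ) - 2 - ε * dg P Q) * logHeight₁ x + (e - ε) * C1 := by
      rw [he]
      field_simp
    have h11 : (e - ε) * C1 ≤ |e - ε| * |C1| := by
      rw [← abs_mul]
      exact le_abs_self _
    linarith
  · have h9 : (e - ε) * logHeight₁ (-P.eval x / Q.eval x) ≤ 0 :=
      mul_nonpos_of_nonpos_of_nonneg (le_of_lt (not_le.1 h8)) h3
    linarith

end Pool.Agent.Helper8.RC
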