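import Pool.Graph.R_pool_sql_team_seeded_2aa45f1a.Q245.Vl.NormOne
import Pool.Agent.Helper8.RC.Curve

/-!
# The three point inequality over `F` and over `K` for the elements of `F`
-/

set_option autoImplicit false

namespace Pool.Agent.Helper8.RC

open NumberField IsDedekindDomain Height Polynomial Pool.Agent.Q290.NF Pool.Agent.Q245.Vk
  Pool.Agent.Q245.Vl

theorem mk_one_iff {K : Type} [Field K] [NumberField K] (v : HeightOneSpectrum (𝓞 K)) (x : K) :
    FinitePlace.mk v x = 1 ↔ v.valuation K x = 1 := by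
  have h1 := Pool.Agent.Q290.NF.mk_le_one (v := v) (x := x)
  have h2 := mk_lt_one_iff v x
  constructor
  · intro h
    rw [h] at h1 h2
    simp only [le_refl, true_iff, lt_irrefl, false_iff, not_lt] at h1 h2
    exact le_antisymm h1 h2
  · intro h
    rw [h] at h1 h2
    simp only [le_refl, iff_true, lt_irrefl, iff_false, not_lt] at h1 h2
    exact le_antisymm h1 h2

theorem sum_eq {K : Type} [Field K] [NumberField K] (z : K) :
    ∑ᶠ v ∈ S0 z, lN v = wt (fun v => Bad3 z v) := by
  classical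
  unfold wt
  rw [← finsum_comp_equiv (FinitePlace.equivHeightOneSpectrum (K := K)).symm]
  refine finsum_congr fun v => ?_
  have e : (FinitePlace.equivHeightOneSpectrum (K := K)).symm v = FinitePlace.mk v := rfl
  rw [e]
  have hiff : FinitePlace.mk v ∈ S0 z ↔ Bad3 z v := by
    show ¬ (FinitePlace.mk v z = 1 ∧ FinitePlace.mk v (1 - z) = 1) ↔ Bad3 z v
    rw [mk_one_iff, mk_one_iff]
    rfl
  by_cases h : Bad3 z v
  · rw [ind_pos (P := fun v => Bad3 z v) h, finsum_eq_if, if_pos (hiff.2 h)]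
    unfold lN ell
    rw [FinitePlace.maximalIdeal_mk]
  · rw [ind_neg (P := fun v => Bad3 z v) h, finsum_eq_if, if_neg (fun h2 => h (hiff.1 h2))]

variable (F K : Type) [Field F] [NumberField F] [Field K] [NumberField K] [Algebra F K]

/-- from `F` to the elements of `F` in `K` -/
theorem to_range (h : F0 F (fun _ => True)) : F0 K (fun z => ∃ s : F, algebraMap F K s = z) := by
  intro ε hε
  obtain ⟨C, hC⟩ := h ε hε
  refine ⟨Module.finrank F K * C + Real.log |(discr K : ℝ)|, ?_⟩
  rintro _ ⟨x, rfl⟩ h0 h1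
  have hx0 : x ≠ 0 := fun h => h0 (by rw [h, map_zero])
  have hx1 : x ≠ 1 := fun h => h1 (by rw [h, map_one])
  have a := hC x trivial hx0 hx1
  have b := rel (S0 x) (S0_finite hx0 hx1) (S0 (algebraMap F K x)) (S0_finite h0 h1) (by
    intro v w hwv hv hw
    apply hv
    obtain ⟨p, q⟩ := hw
    constructor
    · exact (over_one v w x).mp p
    · rw [← over_one (K := K) v w, map_sub, map_one]
      exact q)
  have c := logdisc_nonneg F
  have d : (0 : ℝ) ≤ Module.finrank F K := Nat.cast_nonneg _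
  rw [ht_ext]
  have a2 := mul_le_mul_of_nonneg_left a d
  have c2 := mul_nonneg d c
  nlinarith

/-- and conversely -/
theorem of_range (h : F0 K (fun z => ∃ s : F, algebraMap F K s = z)) : F0 F (fun _ => True) := by
  intro ε hε
  obtain ⟨C, hC⟩ := h ε hε
  have hfd : FiniteDimensional F K := Module.Finite.of_restrictScalars_finite ℚ F K
  have d : (0 : ℝ) < Module.finrank F K := by exact_mod_cast Module.finrank_pos
  refine ⟨C / Module.finrank F K, ?_⟩
  intro x _ hx0 hx1
  have h0 : algebraMap F K x ≠ 0 := (_root_.map_ne_zero _).mpr hx0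
  have h1 : algebraMap F K x ≠ 1 := fun h => hx1 ((algebraMap F K).injective (by rw [h, map_one]))
  have a := hC _ ⟨x, rfl⟩ h0 h1
  have b := (sum_up (S0 x) (S0_finite hx0 hx1) (S0 (algebraMap F K x)) (by
    intro v w hwv hv hw
    apply hv
    obtain ⟨p, q⟩ := hw
    constructor
    · exact (over_one v w x).mpr p
    · rw [← over_one (K := K) v w, map_sub, map_one] at q
      exact q)).2
  rw [ht_ext] at a
  have e : ∑ᶠ v ∈ S0 x, lN v + C / Module.finrank F K =
      (Module.finrank F K * ∑ᶠ v ∈ S0 x, lN v + C) / Module.finrank F K := by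
    field_simp
  rw [e, le_div_iff₀ d]
  linarith

theorem range_stable (f : ℚ[X]) (x : K) (hx : ∃ s : F, algebraMap F K s = x) :
    ∃ s : F, algebraMap F K s = (f.map (algebraMap ℚ K)).eval x := by
  obtain ⟨s, rfl⟩ := hx
  refine ⟨(f.map (algebraMap ℚ F)).eval s, ?_⟩
  rw [eval_map, eval_map, hom_eval₂]
  congr 1
  exact Subsingleton.elim _ _

/-- **the curve** -/
theorem on_curve (h : F0 F (fun _ => True)) (P Q : K[X]) (hPQ : IsCoprime P Q)
    (hd : 1 ≤ dg P Q) :
    ∀ ε : ℝ, 0 < ε → ∃ C : ℝ, ∀ s : F, P.eval (algebraMap F K s) ≠ 0 →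
      Q.eval (algebraMap F K s) ≠ 0 → (P + Q).eval (algebraMap F K s) ≠ 0 →
      (((pts P Q : ℝ) - 2) / dg P Q - ε) *
          logHeight₁ (-P.eval (algebraMap F K s) / Q.eval (algebraMap F K s)) ≤
        ∑ᶠ v ∈ S0 (-P.eval (algebraMap F K s) / Q.eval (algebraMap F K s)), lN v + C := by
  intro ε hε
  obtain ⟨C, hC⟩ := curve_ht P Q hPQ hd (fun z => ∃ s : F, algebraMap F K s = z)
    (range_stable F K) (by
      intro ε hε
      obtain ⟨C, hC⟩ := to_range F K h ε hε
      refine ⟨C, fun z hz h0 h1 => ?_⟩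
      rw [← sum_eq]
      exact hC z hz h0 h1) ε hε
  refine ⟨C, fun s h1 h2 h3 => ?_⟩
  rw [sum_eq]
  exact hC _ ⟨s, rfl⟩ h1 h2 h3

end Pool.Agent.Helper8.RC
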