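import Pool.Graph.R_pool_sql_team_seeded_2aa45f1a.Q290.NF.LineQ
import Pool.Agent.Helper8.RC.Bel

/-!
# From three points to the zeros of a squarefree polynomial, for the points in a set which is
stable under the polynomials with rational coefficients
-/

set_option autoImplicit false

namespace Pool.Agent.Helper8.RC

open NumberField IsDedekindDomain Height Polynomial Pool.Agent.Q290.NF

variable {K : Type} [Field K] [NumberField K]

/-- the reduction of `z` is `0`, `1` or `∞` -/
def Bad3 (z : K) (v : HeightOneSpectrum (𝓞 K)) : Prop :=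
  ¬ (v.valuation K z = 1 ∧ v.valuation K (1 - z) = 1)

theorem fin_bad3 {z : K} (h0 : z ≠ 0) (h1 : z ≠ 1) : {v | Bad3 z v}.Finite := by
  have h2 : 1 - z ≠ 0 := sub_ne_zero.2 (Ne.symm h1)
  refine (((fin_zero h0).union (fin_pole z)).union ((fin_zero h2).union
    (fin_pole (1 - z)))).subset ?_
  intro v hv
  by_contra hcon
  simp only [Set.mem_union, not_or] at hcon
  obtain ⟨⟨a1, a2⟩, a3, a4⟩ := hcon
  rw [Set.mem_ofPred_eq, not_lt] at a1 a2 a3 a4
  exact hv ⟨le_antisymm a2 a1, le_antisymm a4 a3⟩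

/-- a pole of `x` or a zero of `S(x)` -/
def PS (S : K[X]) (x : K) (v : HeightOneSpectrum (𝓞 K)) : Prop :=
  1 < v.valuation K x ∨ v.valuation K (S.eval x) < 1

theorem line_s (S : K[X]) (hS : Squarefree S) (Dm : K → Prop)
    (hDm : ∀ (f : ℚ[X]) (x : K), Dm x → Dm ((f.map (algebraMap ℚ K)).eval x))
    (h3 : ∀ ε : ℝ, 0 < ε → ∃ C : ℝ, ∀ z : K, Dm z → z ≠ 0 → z ≠ 1 →
      (1 - ε) * logHeight₁ z ≤ wt (fun v => Bad3 z v) + C) :
    ∀ ε : ℝ, 0 < ε → ∃ C : ℝ, ∀ x : K, Dm x → S.eval x ≠ 0 →
      ((S.natDegree : ℝ) - 1 - ε) * logHeight₁ x ≤ wt (fun v => PS S x v) + C := by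
  classical
  intro ε hε
  obtain ⟨f, R, G, M, hf, hR, ⟨Q, hQ⟩, hG0, hRG, hdeg⟩ := belyi_sqf K S hS
  obtain ⟨n, hn⟩ : ∃ n : ℕ, n = f.natDegree := ⟨_, rfl⟩
  rw [← hn] at hf hdeg
  have hn0 : (0 : ℝ) < n := by exact_mod_cast hf
  -- the polynomials over `K`
  obtain ⟨F, hF⟩ : ∃ F : K[X], F = f.map (algebraMap ℚ K) := ⟨_, rfl⟩
  obtain ⟨D, hD⟩ : ∃ D : K[X], D = (derivative f).map (algebraMap ℚ K) := ⟨_, rfl⟩
  obtain ⟨Rk, hRk⟩ : ∃ Rk : K[X], Rk = R.map (algebraMap ℚ K) := ⟨_, rfl⟩
  obtain ⟨Qk, hQk⟩ : ∃ Qk : K[X], Qk = Q.map (algebraMap ℚ K) := ⟨_, rfl⟩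
  have e1 : F * (F - 1) = D * Rk := by
    rw [hF, hD, hRk, ← Polynomial.map_mul, ← hR, Polynomial.map_mul, Polynomial.map_sub,
      Polynomial.map_one]
  have e2 : Rk ^ M = D * Qk := by
    rw [hD, hRk, hQk, ← Polynomial.map_mul, ← hQ, Polynomial.map_pow]
  have e3 : Rk = S * G := by rw [hRk]; exact hRG
  have hFd : F.natDegree = n := by rw [hF, natDegree_map, hn]
  -- the constants
  obtain ⟨C0, hC0⟩ := h3 (ε / n) (by positivity)
  obtain ⟨C2, hC2⟩ := poly_height_ge (P := F) (by rw [hFd]; exact hf)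
  obtain ⟨C3, hC3⟩ := poly_height_le (P := G) le_rfl
  -- the bad primes
  obtain ⟨Bd, hBd⟩ : ∃ Bd : Set (HeightOneSpectrum (𝓞 K)), Bd =
    badP F ∪ badP D ∪ badP Rk ∪ badP Qk ∪ badP G ∪ badP S := ⟨_, rfl⟩
  have hBdf : Bd.Finite := by
    rw [hBd]
    exact (((((badP_fin F).union (badP_fin D)).union (badP_fin Rk)).union (badP_fin Qk)).union
      (badP_fin G)).union (badP_fin S)
  obtain ⟨CB, hCB⟩ : ∃ c : ℝ, c = wt (fun v : HeightOneSpectrum (𝓞 K) => v ∈ Bd) := ⟨_, rfl⟩
  have hCB0 : 0 ≤ CB := by rw [hCB]; exact wt_nonneg _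
  -- the exceptional points
  obtain ⟨Z, hZ⟩ : ∃ Z : K[X], Z = F * (F - 1) * G := ⟨_, rfl⟩
  have hZ0 : Z ≠ 0 := by
    have h1 : F ≠ 0 := by
      rintro h
      rw [h, natDegree_zero] at hFd
      omega
    have h2 : F - 1 ≠ 0 := by
      intro h
      rw [sub_eq_zero.1 h, natDegree_one] at hFd
      omega
    rw [hZ]
    exact mul_ne_zero (mul_ne_zero h1 h2) hG0
  obtain ⟨E, hE⟩ : ∃ E : Finset K, E = Z.roots.toFinset := ⟨_, rfl⟩
  obtain ⟨C4, hC4⟩ : ∃ c : ℝ, c = ∑ x ∈ E, |((S.natDegree : ℝ) - 1 - ε) * logHeight₁ x| :=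
    ⟨_, rfl⟩
  have hC40 : 0 ≤ C4 := by rw [hC4]; exact Finset.sum_nonneg fun _ _ => abs_nonneg _
  refine ⟨|C0| + |C2| + |C3| + CB + C4, ?_⟩
  intro x hxD hxS
  have hwp := wt_nonneg (fun v : HeightOneSpectrum (𝓞 K) => PS S x v)
  have hh := zero_le_logHeight₁ x
  by_cases hxE : x ∈ E
  · have h1 : |((S.natDegree : ℝ) - 1 - ε) * logHeight₁ x| ≤ C4 := by
      rw [hC4]
      exact Finset.single_le_sum (f := fun x => |((S.natDegree : ℝ) - 1 - ε) * logHeight₁ x|)
        (fun _ _ => abs_nonneg _) hxE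
    have h2 := le_abs_self (((S.natDegree : ℝ) - 1 - ε) * logHeight₁ x)
    have h3 := abs_nonneg C0
    have h4 := abs_nonneg C2
    have h5 := abs_nonneg C3
    linarith
  · have hZx : Z.eval x ≠ 0 := by
      intro h
      apply hxE
      rw [hE, Multiset.mem_toFinset, mem_roots hZ0]
      exact h
    rw [hZ, eval_mul, eval_mul] at hZx
    have hG : G.eval x ≠ 0 := right_ne_zero_of_mul hZx
    have hW := left_ne_zero_of_mul hZx
    have hFx : F.eval x ≠ 0 := left_ne_zero_of_mul hW
    have hF1 : (F - 1).eval x ≠ 0 := right_ne_zero_of_mul hW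
    rw [eval_sub, eval_one] at hF1
    have hF1' : F.eval x ≠ 1 := fun h => hF1 (by rw [h, sub_self])
    obtain ⟨y, hy⟩ : ∃ y : K, y = F.eval x := ⟨_, rfl⟩
    rw [← hy] at hFx hF1'
    have hdown := hC0 y (by rw [hy, hF]; exact hDm f x hxD) hFx hF1'
    -- the primes
    have hnear : ∀ v : HeightOneSpectrum (𝓞 K), Bad3 y v →
        (v ∈ Bd) ∨ (PS S x v ∨ v.valuation K (G.eval x) < 1) := by
      intro v hv
      by_contra hcon
      unfold PS at hcon
      rw [not_or, not_or, not_or, not_lt, not_lt, not_lt] at hcon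
      obtain ⟨hb, ⟨hx1, hα⟩, hGv⟩ := hcon
      rw [hBd] at hb
      simp only [Set.mem_union, not_or] at hb
      obtain ⟨⟨⟨⟨⟨bF, bD⟩, bR⟩, bQ⟩, bG⟩, bS⟩ := hb
      have vF := eval_le_one bF hx1
      have vR := eval_le_one bR hx1
      have vQ := eval_le_one bQ hx1
      have vF1 : v.valuation K (F.eval x - 1) ≤ 1 :=
        Valuation.map_sub_le _ vF (by rw [map_one])
      have hW1 : v.valuation K (F.eval x * (F.eval x - 1)) < 1 := by
        rw [map_mul]
        by_contra h1
        rw [not_lt] at h1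
        apply hv
        rw [hy]
        have h4 : v.valuation K (F.eval x) = 1 := by
          refine le_antisymm vF ?_
          by_contra h5
          rw [not_le] at h5
          exact absurd (mul_lt_one_of_nonneg_of_lt_one_left zero_le h5 vF1) (not_lt.2 h1)
        have h6 : v.valuation K (F.eval x - 1) = 1 := by
          refine le_antisymm vF1 ?_
          by_contra h5
          rw [not_le] at h5
          exact absurd (mul_lt_one_of_nonneg_of_lt_one_right vF zero_le h5) (not_lt.2 h1)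
        refine ⟨h4, ?_⟩
        rw [Valuation.map_sub_swap]
        exact h6
      have hR1 : v.valuation K (Rk.eval x) < 1 := by
        by_contra hcon
        rw [not_lt] at hcon
        have h3 : v.valuation K (Rk.eval x) = 1 := le_antisymm vR hcon
        have h4 : v.valuation K (D.eval x) * v.valuation K (Qk.eval x) = 1 := by
          rw [← map_mul, ← eval_mul, ← e2, eval_pow, map_pow, h3, one_pow]
        have h5 : 1 ≤ v.valuation K (D.eval x) := by
          by_contra h6
          rw [not_le] at h6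
          have h7 := mul_lt_one_of_nonneg_of_lt_one_left zero_le h6 vQ
          exact absurd h4 h7.ne
        have h6 : v.valuation K (F.eval x * (F.eval x - 1)) = v.valuation K (D.eval x) := by
          have h7 : F.eval x * (F.eval x - 1) = (F * (F - 1)).eval x := by
            rw [eval_mul, eval_sub, eval_one]
          rw [h7, e1, eval_mul, map_mul, h3, mul_one]
        rw [h6] at hW1
        exact absurd hW1 (not_lt.2 h5)
      rw [e3, eval_mul, map_mul] at hR1
      exact absurd hR1 (not_lt.2 (one_le_mul hα hGv))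
    have hf2 : {v : HeightOneSpectrum (𝓞 K) | PS S x v}.Finite :=
      (fin_pole x).union (fin_zero hxS)
    have hf3 : {v : HeightOneSpectrum (𝓞 K) | v.valuation K (G.eval x) < 1}.Finite :=
      fin_zero hG
    have hf4 : {v : HeightOneSpectrum (𝓞 K) | PS S x v ∨
          v.valuation K (G.eval x) < 1}.Finite := hf2.union hf3
    have hle1 : wt (fun v => Bad3 y v) ≤ wt (fun v => v ∈ Bd) +
          wt (fun v => PS S x v ∨ v.valuation K (G.eval x) < 1) :=
      (wt_mono (hBdf.union hf4) hnear).trans (wt_or_le (P := fun v => v ∈ Bd) hBdf hf4)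
    have hle3 : wt (fun v => PS S x v ∨ v.valuation K (G.eval x) < 1) ≤
        wt (fun v : HeightOneSpectrum (𝓞 K) => PS S x v) +
          wt (fun v : HeightOneSpectrum (𝓞 K) => v.valuation K (G.eval x) < 1) :=
      wt_or_le hf2 hf3
    have hle4 := (zero_wt' hG).trans (hC3 x)
    have hle5 := hC2 x
    rw [hFd, ← hy] at hle5
    rw [← hCB] at hle1
    have hdeg' : (S.natDegree : ℝ) + G.natDegree = n + 1 := by exact_mod_cast hdeg
    have a0 := le_abs_self C2
    have a3 := le_abs_self C3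
    have a5 := le_abs_self C0
    have a1 := abs_nonneg C0
    have a2 := abs_nonneg C2
    have a4 := abs_nonneg C3
    have hhy := zero_le_logHeight₁ y
    have hmain : ((n : ℝ) - ε) * logHeight₁ x ≤ (1 - ε / n) * logHeight₁ y + |C2| ∨
        (n : ℝ) - ε ≤ 0 := by
      by_cases hεn : ε ≤ n
      · left
        have h3 : 0 ≤ 1 - ε / n := by
          rw [sub_nonneg, div_le_one hn0]
          exact hεn
        have h4 := mul_le_mul_of_nonneg_left hle5 h3
        have h5 : (1 - ε / n) * (n * logHeight₁ x) = ((n : ℝ) - ε) * logHeight₁ x := by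
          field_simp
        have h6 : (1 - ε / n) * (logHeight₁ y + C2) ≤ (1 - ε / n) * logHeight₁ y + |C2| := by
          rw [mul_add]
          have h7 : (1 - ε / n) * C2 ≤ (1 - ε / n) * |C2| := mul_le_mul_of_nonneg_left a0 h3
          have h8 : (1 - ε / n) * |C2| ≤ 1 * |C2| := by
            refine mul_le_mul_of_nonneg_right ?_ a2
            have : 0 ≤ ε / n := by positivity
            linarith
          linarith
        linarith
      · right
        linarith
    have hcard : ((S.natDegree : ℝ) - 1 - ε) * logHeight₁ x =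
        ((n : ℝ) - ε) * logHeight₁ x - G.natDegree * logHeight₁ x := by
      have : (S.natDegree : ℝ) = n + 1 - G.natDegree := by linarith
      rw [this]
      ring
    rcases hmain with h3 | h3
    · linarith
    · have h4 : ((n : ℝ) - ε) * logHeight₁ x ≤ 0 := mul_nonpos_of_nonpos_of_nonneg h3 hh
      have h5 : 0 ≤ (G.natDegree : ℝ) * logHeight₁ x := by positivity
      linarith

end Pool.Agent.Helper8.RC
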