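import Pool.Agent.Helper8.RC.Bridge

/-!
# The inequality for rational curves in projective space
-/

set_option autoImplicit false

namespace Pool.Agent.Helper8.RC

open NumberField IsDedekindDomain Height Polynomial Pool.Agent.Q290.NF Pool.Agent.Q245.Vk
  Pool.Agent.Q245.Vl

/-- the orders of the coordinates are not all equal -/
def Rd {K : Type} [Field K] [NumberField K] {n : ℕ} (z : Fin n → K)
    (v : HeightOneSpectrum (𝓞 K)) : Prop :=
  ∃ i j, v.valuation K (z i) ≠ v.valuation K (z j)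

section

variable {K : Type} [Field K] [NumberField K]

theorem fin_rd {n : ℕ} {z : Fin n → K} (hz : ∀ i, z i ≠ 0) : {v | Rd z v}.Finite := by
  have h1 : (⋃ i, nonunit (z i)).Finite := Set.finite_iUnion fun i => nonunit_fin (hz i)
  refine h1.subset ?_
  rintro v ⟨i, j, hij⟩
  rw [Set.mem_iUnion]
  by_contra hcon
  push Not at hcon
  have a : ∀ i, v.valuation K (z i) = 1 := by
    intro i
    by_contra h
    exact hcon i h
  exact hij (by rw [a, a])

/-- the degree of a curve -/
def dgn {n : ℕ} (P : Fin n → K[X]) : ℕ := Finset.univ.sup fun i => (P i).natDegree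

open Classical in
/-- the number of the points of a curve on the coordinate hyperplanes -/
noncomputable def ptn {n : ℕ} (P : Fin n → K[X]) : ℕ :=
  (UniqueFactorizationMonoid.radical (∏ i, P i)).natDegree +
    if ∀ i j, (P i).natDegree = (P j).natDegree then 0 else 1

theorem curve_height {n : ℕ} (P : Fin n → K[X]) (hn : 0 < n) : ∃ C : ℝ, ∀ x : K,
    logHeight (fun i => (P i).eval x) ≤ dgn P * logHeight₁ x + C := by
  haveI : Nonempty (Fin n) := ⟨⟨0, hn⟩⟩
  obtain ⟨C, hC⟩ := logHeight_eval_le' (K := K) (N := dgn P)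
    (p := fun j : Fin n => hom (dgn P) (P j)) (fun j => hom_homogeneous _ _)
  refine ⟨C, fun x => ?_⟩
  have h1 := hC ![x, 1]
  have h2 : (fun j : Fin n => MvPolynomial.eval ![x, 1] (hom (dgn P) (P j))) =
      fun i => (P i).eval x := by
    funext j
    exact hom_eval (Finset.le_sup (f := fun i => (P i).natDegree) (Finset.mem_univ j)) x
  rw [h2, ← logHeight₁_eq_logHeight] at h1
  linarith

theorem curve_n {n : ℕ} (P : Fin n → K[X]) (h0 : ∀ i, P i ≠ 0)
    (hcop : Ideal.span (Set.range P) = ⊤) (Dm : K → Prop)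
    (hDm : ∀ (f : ℚ[X]) (x : K), Dm x → Dm ((f.map (algebraMap ℚ K)).eval x))
    (h3 : ∀ ε : ℝ, 0 < ε → ∃ C : ℝ, ∀ z : K, Dm z → z ≠ 0 → z ≠ 1 →
      (1 - ε) * logHeight₁ z ≤ wt (fun v => Bad3 z v) + C) :
    ∀ ε : ℝ, 0 < ε → ∃ C : ℝ, ∀ x : K, Dm x → (∀ i, (P i).eval x ≠ 0) →
      ((ptn P : ℝ) - 2 - ε) * logHeight₁ x ≤
        wt (fun v => Rd (fun i => (P i).eval x) v) + C := by
  classical
  intro ε hε
  obtain ⟨S, hS⟩ : ∃ S : K[X], S = UniqueFactorizationMonoid.radical (∏ i, P i) := ⟨_, rfl⟩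
  have hSq : Squarefree S := by
    rw [hS]
    exact UniqueFactorizationMonoid.squarefree_radical
  obtain ⟨T, hT⟩ : S ∣ ∏ i, P i := by
    rw [hS]
    exact UniqueFactorizationMonoid.radical_dvd_self
  obtain ⟨A, hA⟩ : ∃ A : Fin n → K[X], ∑ i, A i * P i = 1 := by
    have h1 : (1 : K[X]) ∈ Ideal.span (Set.range P) := by rw [hcop]; trivial
    obtain ⟨c, hc⟩ := Ideal.mem_span_range_iff_exists_fun.1 h1
    exact ⟨c, hc⟩
  obtain ⟨C, hC⟩ := line_s S hSq Dm hDm h3 ε hε
  obtain ⟨Bd, hBd⟩ : ∃ Bd : Set (HeightOneSpectrum (𝓞 K)), Bd =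
    ((⋃ i, badP (P i)) ∪ (⋃ i, badP (A i))) ∪ (badP T ∪ ⋃ i, nonunit (P i).leadingCoeff) :=
    ⟨_, rfl⟩
  have hBdf : Bd.Finite := by
    rw [hBd]
    exact ((Set.finite_iUnion fun i => badP_fin (P i)).union
      (Set.finite_iUnion fun i => badP_fin (A i))).union ((badP_fin T).union
      (Set.finite_iUnion fun i => nonunit_fin (leadingCoeff_ne_zero.2 (h0 i))))
  obtain ⟨CB, hCB⟩ : ∃ c : ℝ, c = wt (fun v : HeightOneSpectrum (𝓞 K) => v ∈ Bd) := ⟨_, rfl⟩
  have hCB0 : 0 ≤ CB := by rw [hCB]; exact wt_nonneg _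
  refine ⟨C + CB, fun x hxD hPx => ?_⟩
  have hprod : (∏ i, P i).eval x ≠ 0 := by
    rw [eval_prod]
    exact Finset.prod_ne_zero_iff.2 fun i _ => hPx i
  have hSx : S.eval x ≠ 0 := by
    intro h
    apply hprod
    rw [hT, eval_mul, h, zero_mul]
  have hmain := hC x hxD hSx
  obtain ⟨z, hz⟩ : ∃ z : Fin n → K, z = fun i => (P i).eval x := ⟨_, rfl⟩
  rw [← hz]
  have hfz : {v | Rd z v}.Finite := fin_rd (by rw [hz]; exact hPx)
  have hsame : ∀ v : HeightOneSpectrum (𝓞 K), ¬ Rd z v → ∀ i j,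
      v.valuation K ((P i).eval x) = v.valuation K ((P j).eval x) := by
    intro v hv i j
    by_contra h
    apply hv
    refine ⟨i, j, ?_⟩
    rw [hz]
    exact h
  have hzero : ∀ v : HeightOneSpectrum (𝓞 K), v ∉ Bd → v.valuation K x ≤ 1 →
      v.valuation K (S.eval x) < 1 → Rd z v := by
    intro v hb hx1 hSv
    by_contra hcon
    have s1 := hsame v hcon
    rw [hBd] at hb
    simp only [Set.mem_union, Set.mem_iUnion, not_or, not_exists] at hb
    obtain ⟨⟨bP, bA⟩, bT, -⟩ := hb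
    have vP : ∀ i, v.valuation K ((P i).eval x) ≤ 1 := fun i => eval_le_one (bP i) hx1
    have vA : ∀ i, v.valuation K ((A i).eval x) ≤ 1 := fun i => eval_le_one (bA i) hx1
    have vT := eval_le_one bT hx1
    have h1 : ∀ j, v.valuation K ((P j).eval x) = 1 := by
      intro j
      refine le_antisymm (vP j) ?_
      have h2 : ∑ i, (A i).eval x * (P i).eval x = 1 := by
        have := congrArg (fun Q : K[X] => Q.eval x) hA
        simp only [eval_finset_sum, eval_mul, eval_one] at this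
        exact this
      have h4 : v.valuation K (∑ i, (A i).eval x * (P i).eval x) ≤
          v.valuation K ((P j).eval x) := by
        refine Valuation.map_sum_le _ fun i _ => ?_
        rw [map_mul, s1 i j]
        exact mul_le_of_le_one_left' (vA i)
      rwa [h2, map_one] at h4
    have h4 : v.valuation K ((∏ i, P i).eval x) = 1 := by
      rw [eval_prod, map_prod]
      exact Finset.prod_eq_one fun i _ => h1 i
    rw [hT, eval_mul, map_mul] at h4
    exact absurd h4 (mul_lt_one_of_nonneg_of_lt_one_left zero_le hSv vT).ne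
  by_cases hinf : ∀ i j, (P i).natDegree = (P j).natDegree
  · have hfp := fin_pole x
    have hle : wt (fun v => PS S x v) ≤ (CB + wt (fun v => Rd z v)) +
        wt (fun v : HeightOneSpectrum (𝓞 K) => 1 < v.valuation K x) := by
      rw [hCB]
      refine (wt_mono ((hBdf.union hfz).union hfp) ?_).trans ((wt_or_le
        (P := fun v => v ∈ Bd ∨ Rd z v) (hBdf.union hfz) hfp).trans
        (add_le_add (wt_or_le (P := fun v => v ∈ Bd) hBdf hfz) le_rfl))
      intro v hv
      by_cases hb : v ∈ Bd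
      · exact Or.inl (Or.inl hb)
      · by_cases hx1 : 1 < v.valuation K x
        · exact Or.inr hx1
        · left
          right
          rcases hv with h | h
          · exact absurd h hx1
          · exact hzero v hb (not_lt.1 hx1) h
    have hp := pole_le x
    have e : (ptn P : ℝ) = S.natDegree := by
      unfold ptn
      rw [if_pos hinf, hS]
      push_cast
      ring
    rw [e]
    have e2 : ((S.natDegree : ℝ) - 2 - ε) * logHeight₁ x =
        ((S.natDegree : ℝ) - 1 - ε) * logHeight₁ x - logHeight₁ x := by ring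
    rw [e2]
    linarith
  · have hpole : ∀ v : HeightOneSpectrum (𝓞 K), v ∉ Bd → 1 < v.valuation K x → Rd z v := by
      intro v hb hx1
      by_contra hcon
      have s1 := hsame v hcon
      rw [hBd] at hb
      simp only [Set.mem_union, Set.mem_iUnion, not_or, not_exists] at hb
      obtain ⟨⟨bP, bA⟩, bT, lP⟩ := hb
      apply hinf
      intro i j
      have s2 := s1 i j
      rw [eval_pole (bP i) (lP i) hx1, eval_pole (bP j) (lP j) hx1] at s2
      exact pow_right_injective₀ (lt_trans zero_lt_one hx1) hx1.ne' s2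
    have hle : wt (fun v => PS S x v) ≤ CB + wt (fun v => Rd z v) := by
      rw [hCB]
      refine (wt_mono (hBdf.union hfz) ?_).trans (wt_or_le (P := fun v => v ∈ Bd) hBdf hfz)
      intro v hv
      by_cases hb : v ∈ Bd
      · exact Or.inl hb
      · right
        by_cases hx1 : 1 < v.valuation K x
        · exact hpole v hb hx1
        · rcases hv with h | h
          · exact absurd h hx1
          · exact hzero v hb (not_lt.1 hx1) h
    have e : (ptn P : ℝ) = S.natDegree + 1 := by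
      unfold ptn
      rw [if_neg hinf, hS]
      push_cast
      ring
    rw [e]
    have e2 : ((S.natDegree : ℝ) + 1 - 2 - ε) = S.natDegree - 1 - ε := by ring
    rw [e2]
    linarith

/-- in terms of the height of the point -/
theorem curve_n_ht {n : ℕ} (P : Fin n → K[X]) (hn : 0 < n) (h0 : ∀ i, P i ≠ 0)
    (hcop : Ideal.span (Set.range P) = ⊤) (hq : 3 ≤ ptn P) (Dm : K → Prop)
    (hDm : ∀ (f : ℚ[X]) (x : K), Dm x → Dm ((f.map (algebraMap ℚ K)).eval x))
    (h3 : ∀ ε : ℝ, 0 < ε → ∃ C : ℝ, ∀ z : K, Dm z → z ≠ 0 → z ≠ 1 →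
      (1 - ε) * logHeight₁ z ≤ wt (fun v => Bad3 z v) + C) :
    ∀ ε : ℝ, 0 < ε → ∃ C : ℝ, ∀ x : K, Dm x → (∀ i, (P i).eval x ≠ 0) →
      logHeight (fun i => (P i).eval x) ≤ ((dgn P : ℝ) / ((ptn P : ℝ) - 2) + ε) *
        wt (fun v => Rd (fun i => (P i).eval x) v) + C := by
  intro ε hε
  have hq3 : (3 : ℝ) ≤ ptn P := by exact_mod_cast hq
  obtain ⟨q, hqe⟩ : ∃ q : ℝ, q = (ptn P : ℝ) - 2 := ⟨_, rfl⟩
  have hq0 : 0 < q := by rw [hqe]; linarith
  obtain ⟨κ, hκ⟩ : ∃ κ : ℝ, κ = (dgn P : ℝ) / q + ε := ⟨_, rfl⟩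
  have hκ0 : 0 < κ := by
    rw [hκ]
    positivity
  obtain ⟨C, hC⟩ := curve_n P h0 hcop Dm hDm h3 (ε * q / κ) (by positivity)
  obtain ⟨C1, hC1⟩ := curve_height P hn
  refine ⟨κ * C + C1, fun x hxD hPx => ?_⟩
  have a := hC x hxD hPx
  have b := hC1 x
  rw [← hqe] at a ⊢
  rw [← hκ]
  have c := mul_le_mul_of_nonneg_left a hκ0.le
  have e : κ * ((q - ε * q / κ) * logHeight₁ x) = dgn P * logHeight₁ x := by
    have : κ * (q - ε * q / κ) = dgn P := by
      field_simp
      rw [hκ]
      field_simp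
      ring
    rw [← mul_assoc, this]
  rw [e] at c
  linarith

end

/-- three terms over `F` -/
theorem three {F : Type} [Field F] [NumberField F]
    (h : ∀ ε : ℝ, 0 < ε → ∃ C : ℝ, ∀ z : Fin 3 → F, (∀ i, z i ≠ 0) → ∑ i, z i = 0 →
      logHeight z ≤ (1 + ε) * wt (fun v => Rd z v) + C) : F0 F (fun _ => True) := by
  intro ε hε
  obtain ⟨C, hC⟩ := h ε hε
  refine ⟨|C|, fun x _ h0 h1 => ?_⟩
  have hne : ∀ i, (![-x, 1, x - 1] : Fin 3 → F) i ≠ 0 := by
    intro i
    fin_cases i
    · simpa using h0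
    · simp
    · simpa using sub_ne_zero.mpr h1
  have hsum : ∑ i, (![-x, 1, x - 1] : Fin 3 → F) i = 0 := by
    rw [Fin.sum_univ_three]
    simp
  have hsum' : (![-x, 1, x - 1] : Fin 3 → F) 0 + (![-x, 1, x - 1] : Fin 3 → F) 1 +
      (![-x, 1, x - 1] : Fin 3 → F) 2 = 0 := by
    rw [← Fin.sum_univ_three]
    exact hsum
  have hz' : -(![-x, 1, x - 1] : Fin 3 → F) 0 / (![-x, 1, x - 1] : Fin 3 → F) 1 = x := by simp
  have a := hC _ hne hsum
  have b := (tri_height _ hsum' hne).1
  rw [hz'] at b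
  have hrd : wt (fun v => Rd (![-x, 1, x - 1] : Fin 3 → F) v) ≤ wt (fun v => Bad3 x v) := by
    refine wt_mono (fin_bad3 h0 h1) ?_
    rintro v ⟨i, j, hij⟩ ⟨u1, u2⟩
    apply hij
    have hall : ∀ i, v.valuation F ((![-x, 1, x - 1] : Fin 3 → F) i) = 1 := by
      intro i
      fin_cases i
      · simpa using u1
      · simp
      · show v.valuation F (x - 1) = 1
        rw [Valuation.map_sub_swap]
        exact u2
    rw [hall, hall]
  rw [sum_eq]
  have hw := wt_nonneg (fun v => Bad3 x v)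
  have hh := zero_le_logHeight₁ x
  have c : logHeight₁ x ≤ (1 + ε) * wt (fun v => Bad3 x v) + |C| := by
    have := le_abs_self C
    have h2 := mul_le_mul_of_nonneg_left hrd (show 0 ≤ 1 + ε by linarith)
    linarith
  have hC0 := abs_nonneg C
  by_cases hε1 : 1 ≤ ε
  · have : (1 - ε) * logHeight₁ x ≤ 0 := mul_nonpos_of_nonpos_of_nonneg (by linarith) hh
    linarith
  · push Not at hε1
    have d := mul_le_mul_of_nonneg_left c (show 0 ≤ 1 - ε by linarith)
    nlinarith [mul_nonneg (sq_nonneg ε) hw, mul_nonneg hε.le hC0]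

end Pool.Agent.Helper8.RC
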